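import Pool.Agent.U555.GS.Main

/-!
# MP_d29d91_an, Q1: `𝒪(𝔻 ∪ {1})` and `𝒪(𝔻 ∪ β)` are not isomorphic

Definitions (in `Pool.Agent.U555.GS.Defs`):
* `Hol V`, `V ⊆ ℂ` open, is the space of holomorphic functions on `V` with the compact-open
  topology;
* `OGerm E`, `E ⊆ ℂ` arbitrary, is the space of germs on `E` of functions holomorphic near `E`, with
  the finest locally convex topology which makes all canonical maps `Hol V → OGerm E`, `V ⊇ E` open,
  continuous, i.e. the inductive limit in the category of locally convex spaces.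

Idea of the proof.  Let `T : 𝒪(𝔻 ∪ β) → 𝒪(𝔻 ∪ {1})` be an isomorphism.  By Baire's theorem there
is `δ > 0` such that `T f` extends to `|z - 1| < δ` for all entire `f`, with bounds by the maximum of
`|f|` on a large disc.  Take the `(2 D + 1)`-dimensional space of all `f = exp (N c̄ z) p(z)`, where
`c` is the midpoint of `β`, `p` is a polynomial of degree at most `2 D` and `N` is a fixed multiple
of `D`: away from `β` these functions are smaller than near `β`.  Some `f ≠ 0` in it is such that
`T f` vanishes to order `D` at `0` and at `1`.  By Schwarz's lemma `T f` is then very small on the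
disc `|z - 1| ≤ r`, provided that `r` was chosen much smaller than `δ`, and on the compact subsets
of `𝔻`; as `T⁻¹` is continuous on `𝒪(𝔻 ∪ {|z - 1| < r})`, `f` is smaller than itself.
-/

set_option autoImplicit false

open Set Topology Filter Metric

namespace Pool.Agent.Results.MP_d29d91_an.PointVersusArc

open Pool.Agent.U555.GS

/-- `β` is a closed non-degenerate arc of the unit circle. -/
def IsClosedArc (β : Set ℂ) : Prop :=
  ∃ a b : ℝ, a < b ∧ β = (fun t : ℝ => Complex.exp (t * Complex.I)) '' Icc a b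

lemma near {a b : ℝ} {u : ℂ} (hu : ‖u‖ = 1)
    (h : dist u (Complex.exp (((a + b) / 2 : ℝ) * Complex.I)) < (b - a) / Real.pi) :
    u ∈ (fun t : ℝ => Complex.exp (t * Complex.I)) '' Icc a b := by
  set s : ℝ := (a + b) / 2 with hs
  set c : ℂ := Complex.exp (s * Complex.I) with hc
  have hcn : ‖c‖ = 1 := Complex.norm_exp_ofReal_mul_I s
  have hc0 : c ≠ 0 := Complex.exp_ne_zero _
  set w : ℂ := u / c with hw
  have hwn : ‖w‖ = 1 := by rw [hw, norm_div, hu, hcn, div_one]
  set θ : ℝ := w.arg with hθ
  have hwexp : w = Complex.exp (Complex.I * θ) := by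
    have h1 := Complex.norm_mul_exp_arg_mul_I w
    rw [hwn, Complex.ofReal_one, one_mul] at h1
    rw [mul_comm, ← h1]
  have hθπ : |θ| ≤ Real.pi := Complex.abs_arg_le_pi w
  have hd : dist u c = ‖w - 1‖ := by
    have e : w - 1 = (u - c) / c := by rw [hw]; field_simp
    rw [e, norm_div, hcn, div_one, dist_eq_norm]
  have h1 : ‖w - 1‖ = |2 * Real.sin (θ / 2)| := by
    rw [hwexp, Complex.norm_exp_I_mul_ofReal_sub_one, Real.norm_eq_abs]
  have h2 : 2 / Real.pi * |θ / 2| ≤ |Real.sin (θ / 2)| := by
    apply Real.mul_abs_le_abs_sin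
    rw [abs_div, abs_two]
    linarith
  have hpi := Real.pi_pos
  have h3 : |θ| < (b - a) / 2 := by
    rw [hd, h1, abs_mul, abs_two, lt_div_iff₀ hpi] at h
    rw [abs_div, abs_two] at h2
    have h4 : 2 / Real.pi * (|θ| / 2) * Real.pi = |θ| := by field_simp
    nlinarith
  have h5 := abs_lt.1 h3
  refine ⟨s + θ, ⟨by rw [hs]; linarith [h5.1], by rw [hs]; linarith [h5.2]⟩, ?_⟩
  have h6 : u = c * w := by rw [hw]; field_simp
  show Complex.exp (((s + θ : ℝ) : ℂ) * Complex.I) = u
  rw [h6, hc, hwexp, ← Complex.exp_add]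
  congr 1
  push_cast
  ring

/-- For every closed non-degenerate arc `β` of the unit circle there is no linear homeomorphism
between `𝒪(𝔻 ∪ {1})` and `𝒪(𝔻 ∪ β)`. -/
theorem result (β : Set ℂ) (hβ : IsClosedArc β) :
    IsEmpty (OGerm (ball (0 : ℂ) 1 ∪ {1}) ≃L[ℂ] OGerm (ball (0 : ℂ) 1 ∪ β)) := by
  obtain ⟨a, b, hab, rfl⟩ := hβ
  refine ⟨fun T => ?_⟩
  have hpi := Real.pi_pos
  have hpos : 0 < (b - a) / Real.pi := div_pos (by linarith) hpi
  refine main (F := (fun t : ℝ => Complex.exp (t * Complex.I)) '' Icc a b)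
    (c := Complex.exp (((a + b) / 2 : ℝ) * Complex.I)) (η := min 1 ((b - a) / Real.pi))
    (isCompact_Icc.image (by fun_prop)) ?_ (Complex.norm_exp_ofReal_mul_I _)
    (lt_min one_pos hpos) (min_le_left _ _) (fun u hu h => ?_) T.symm
  · rintro _ ⟨t, -, rfl⟩
    exact Complex.norm_exp_ofReal_mul_I t
  · exact near hu (h.trans_le (min_le_right _ _))

end Pool.Agent.Results.MP_d29d91_an.PointVersusArc
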